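import Pool.Agent.K3h22.EX.Stm4

/-!
# Brick PATH: two segments which avoid the zeros of a polynomial
-/

set_option autoImplicit false

namespace Pool.Agent.K3h85.EX

open Pool.Agent.K3h22.EX MvPolynomial

/-- the points of a complex line -/
noncomputable def ln {s : ℕ} (ζ₁ ζ₂ : Fin s → ℂ) (t : ℂ) : Fin s → ℂ :=
  fun i => ζ₁ i + t * (ζ₂ i - ζ₁ i)

lemma continuous_ln {s : ℕ} (ζ₁ ζ₂ : Fin s → ℂ) : Continuous (ln ζ₁ ζ₂) := by
  refine continuous_pi fun i => ?_
  exact continuous_const.add (continuous_id.mul continuous_const)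

/-- the restriction of a polynomial to a complex line -/
lemma exists_restrict {s : ℕ} (q : MvPolynomial (Fin s) ℂ) (ζ₁ ζ₂ : Fin s → ℂ) :
    ∃ Q : Polynomial ℂ, ∀ t, Q.eval t = eval (ln ζ₁ ζ₂ t) q := by
  refine ⟨aeval (fun i => Polynomial.C (ζ₁ i) + Polynomial.X * Polynomial.C (ζ₂ i - ζ₁ i)) q,
    fun t => ?_⟩
  have h1 := MvPolynomial.map_aeval (fun i => Polynomial.C (ζ₁ i) +
    Polynomial.X * Polynomial.C (ζ₂ i - ζ₁ i)) (Polynomial.evalRingHom t) q
  rw [Polynomial.coe_evalRingHom] at h1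
  rw [h1]
  have h2 : (Polynomial.evalRingHom t).comp (algebraMap ℂ (Polynomial ℂ)) = RingHom.id ℂ := by
    ext c
    simp
  rw [h2]
  have h3 : (fun i => Polynomial.eval t (Polynomial.C (ζ₁ i) +
      Polynomial.X * Polynomial.C (ζ₂ i - ζ₁ i))) = ln ζ₁ ζ₂ t := by
    funext i
    simp [ln]
  rw [h3]
  rfl

theorem t_PATH : S_PATH := by
  intro s q Ω hΩ hconv ζ₁ h₁ ζ₂ h₂ hq₁ hq₂
  obtain ⟨Q, hQ⟩ := exists_restrict q ζ₁ ζ₂
  have hz0 : ln ζ₁ ζ₂ 0 = ζ₁ := by
    funext i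
    simp [ln]
  have hz1 : ln ζ₁ ζ₂ 1 = ζ₂ := by
    funext i
    simp [ln]
  have hQ0 : Q.eval 0 ≠ 0 := by
    rw [hQ, hz0]
    exact hq₁
  have hQ1 : Q.eval 1 ≠ 0 := by
    rw [hQ, hz1]
    exact hq₂
  have hQne : Q ≠ 0 := by
    rintro rfl
    exact hQ0 Polynomial.eval_zero
  have hmid : ln ζ₁ ζ₂ (1 / 2) ∈ Ω := by
    have h3 := hconv h₁ h₂ (a := (1 / 2 : ℝ)) (b := (1 / 2 : ℝ)) (by norm_num) (by norm_num)
      (by norm_num)
    convert h3 using 1
    funext i
    simp only [ln, Pi.add_apply, Pi.smul_apply, Complex.real_smul]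
    push_cast
    ring
  obtain ⟨δ, hδ, hball⟩ := Metric.isOpen_iff.1 (hΩ.preimage (continuous_ln ζ₁ ζ₂)) (1 / 2) hmid
  let bad : Finset ℝ := Q.roots.toFinset.image (fun t => t.im / (2 * t.re)) ∪
    Q.roots.toFinset.image (fun t => t.im / (2 * (1 - t.re)))
  obtain ⟨d, hd, hdbad⟩ := (Set.Ioo_infinite hδ).exists_notMem_finset bad
  have hroot : ∀ t : ℂ, Q.eval t = 0 → t ∈ Q.roots.toFinset := by
    intro t ht
    rw [Multiset.mem_toFinset, Polynomial.mem_roots hQne]
    exact ht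
  set w : ℂ := ⟨1 / 2, d⟩ with hw
  refine ⟨ln ζ₁ ζ₂ w, ?_, ?_, ?_⟩
  · apply hball
    rw [Metric.mem_ball, Complex.dist_eq]
    have h3 : w - 1 / 2 = (d : ℂ) * Complex.I := by
      apply Complex.ext <;> simp [hw]
    rw [h3, norm_mul, Complex.norm_I, mul_one, Complex.norm_real, Real.norm_eq_abs,
      abs_of_pos hd.1]
    exact hd.2
  · rintro v ⟨a, b, ha, hb, hab, rfl⟩ hv
    have h3 : a • ζ₁ + b • ln ζ₁ ζ₂ w = ln ζ₁ ζ₂ (b * w) := by
      have hab' : (a : ℂ) = 1 - b := by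
        rw [← Complex.ofReal_one, ← hab]
        push_cast
        ring
      funext i
      simp only [ln, Pi.add_apply, Pi.smul_apply, Complex.real_smul, hab']
      ring
    rw [h3, ← hQ] at hv
    have hb0 : b ≠ 0 := by
      rintro rfl
      apply hQ0
      simpa using hv
    apply hdbad
    refine Finset.mem_union_left _ (Finset.mem_image.2 ⟨_, hroot _ hv, ?_⟩)
    have h4 : ((b : ℂ) * w).re = b / 2 := by
      rw [Complex.re_ofReal_mul, hw]
      ring
    have h5 : ((b : ℂ) * w).im = b * d := by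
      rw [Complex.im_ofReal_mul, hw]
    rw [h4, h5]
    field_simp
  · rintro v ⟨a, b, ha, hb, hab, rfl⟩ hv
    have h3 : a • ln ζ₁ ζ₂ w + b • ζ₂ = ln ζ₁ ζ₂ (a * w + b) := by
      have hab' : (a : ℂ) = 1 - b := by
        rw [← Complex.ofReal_one, ← hab]
        push_cast
        ring
      funext i
      simp only [ln, Pi.add_apply, Pi.smul_apply, Complex.real_smul, hab']
      ring
    rw [h3, ← hQ] at hv
    have ha0 : a ≠ 0 := by
      rintro rfl
      rw [zero_add] at hab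
      apply hQ1
      rw [hab] at hv
      simpa using hv
    apply hdbad
    refine Finset.mem_union_right _ (Finset.mem_image.2 ⟨_, hroot _ hv, ?_⟩)
    have h4 : ((a : ℂ) * w + b).re = 1 - a / 2 := by
      rw [Complex.add_re, Complex.re_ofReal_mul, Complex.ofReal_re, hw]
      have : b = 1 - a := by linarith
      rw [this]
      ring
    have h5 : ((a : ℂ) * w + b).im = a * d := by
      rw [Complex.add_im, Complex.im_ofReal_mul, Complex.ofReal_im, add_zero, hw]
    rw [h4, h5]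
    have h6 : 2 * (1 - (1 - a / 2)) = a := by ring
    rw [h6, mul_div_cancel_left₀ d ha0]

end Pool.Agent.K3h85.EX
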