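import Pool.Agent.K3h22.EX.Stm4

/-!
# Brick SURJ: real parts of linear forms
-/

set_option autoImplicit false

namespace Pool.Agent.K3h85.EX

open Pool.Agent.K3h22.EX

/-- the real-linear map `z ↦ (Re dot (ℓ i) z)_i` -/
noncomputable def reMap {s n : ℕ} (ℓ : Fin n → Fin s → ℂ) : (Fin s → ℂ) →ₗ[ℝ] (Fin n → ℝ) where
  toFun z := fun i => (dot (ℓ i) z).re
  map_add' x y := by
    funext i
    simp only [dot, Pi.add_apply, mul_add, Finset.sum_add_distrib, Complex.add_re]
  map_smul' r x := by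
    funext i
    simp only [dot, Pi.smul_apply, RingHom.id_apply, smul_eq_mul, Complex.re_sum]
    rw [Finset.mul_sum]
    refine Finset.sum_congr rfl fun a _ => ?_
    rw [mul_smul_comm, Complex.smul_re, smul_eq_mul]

theorem t_SURJ : S_SURJ := by
  intro s n ℓ h ω
  have hsurj : LinearMap.range (reMap ℓ) = ⊤ := by
    by_contra hcon
    obtain ⟨f, hf, hle⟩ := Submodule.exists_le_ker_of_lt_top _ (lt_top_iff_ne_top.2 hcon)
    let c : Fin n → ℝ := fun i => f (Pi.single i 1)
    have hfc : ∀ x : Fin n → ℝ, f x = ∑ i, x i * c i := by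
      intro x
      conv_lhs => rw [LinearMap.pi_apply_eq_sum_univ f x]
      refine Finset.sum_congr rfl fun i _ => ?_
      rw [smul_eq_mul]
      congr 2
      funext j
      simp [Pi.single_apply, eq_comm]
    have h0 : ∀ z : Fin s → ℂ, ∑ i, (dot (ℓ i) z).re * c i = 0 := by
      intro z
      have h1 : reMap ℓ z ∈ LinearMap.ker f := hle ⟨z, rfl⟩
      rw [LinearMap.mem_ker, hfc] at h1
      exact h1
    have h1 : ∀ z : Fin s → ℂ, (∑ a, (∑ i, (c i : ℂ) * ℓ i a) * z a).re = 0 := by
      intro z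
      rw [← h0 z]
      have h2 : ∑ a, (∑ i, (c i : ℂ) * ℓ i a) * z a = ∑ i, (c i : ℂ) * dot (ℓ i) z := by
        simp only [dot, Finset.sum_mul, Finset.mul_sum]
        rw [Finset.sum_comm]
        exact Finset.sum_congr rfl fun i _ => Finset.sum_congr rfl fun a _ => by ring
      rw [h2, Complex.re_sum]
      refine Finset.sum_congr rfl fun i _ => ?_
      rw [Complex.re_ofReal_mul, mul_comm]
    have h2 := h1 fun a => star (∑ i, (c i : ℂ) * ℓ i a)
    have h3 : ∑ a, ‖∑ i, (c i : ℂ) * ℓ i a‖ ^ 2 = 0 := by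
      rw [← h2, Complex.re_sum]
      refine Finset.sum_congr rfl fun a _ => ?_
      rw [Complex.star_def, Complex.mul_conj, Complex.ofReal_re, Complex.normSq_eq_norm_sq]
    have h4 : c = 0 := h c fun a => by
      have h5 := (Finset.sum_eq_zero_iff_of_nonneg (fun a _ => sq_nonneg _)).1 h3 a
        (Finset.mem_univ a)
      exact norm_eq_zero.1 (pow_eq_zero_iff two_ne_zero |>.1 h5)
    apply hf
    ext i
    have h5 := congrFun h4 i
    simpa using h5
  have h1 : ω ∈ LinearMap.range (reMap ℓ) := hsurj ▸ Submodule.mem_top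
  obtain ⟨ζ, hζ⟩ := h1
  exact ⟨ζ, fun i => congrFun hζ i⟩

end Pool.Agent.K3h85.EX
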