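import Pool.Agent.K3h22.EX.Stm3

/-!
# Brick UNIT1: compactness
-/

set_option autoImplicit false

namespace Pool.Agent.K3h85.EX

open Pool.Agent.K3h22.EX Metric Set Filter Topology

theorem t_UNIT1 : S_UNIT1 := by
  intro s κ _ f M hf h
  let F : (κ → ℂ) × (Fin s → ℂ) → ℂ := fun p => ∑ j, p.1 j * f j p.2
  have hF : Continuous F := by
    refine continuous_finsetSum _ fun j _ => ?_
    exact ((continuous_apply j).comp continuous_fst).mul ((hf j).comp continuous_snd)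
  have key : ∃ c : ℝ, 0 < c ∧ ∀ a ∈ sphere (0 : κ → ℂ) 1, ∃ τ : Fin s → ℝ, ‖τ‖ ≤ 1 ∧
      ∀ w ∈ ball (mv M τ) c, c ≤ ‖F (a, w)‖ := by
    refine IsCompact.induction_on (p := fun t : Set (κ → ℂ) => ∃ c : ℝ, 0 < c ∧ ∀ a ∈ t,
      ∃ τ : Fin s → ℝ, ‖τ‖ ≤ 1 ∧ ∀ w ∈ ball (mv M τ) c, c ≤ ‖F (a, w)‖)
      (isCompact_sphere (0 : κ → ℂ) 1) ?_ ?_ ?_ ?_
    · exact ⟨1, one_pos, fun a ha => ha.elim⟩
    · rintro t t' htt' ⟨c, hc, h1⟩
      exact ⟨c, hc, fun a ha => h1 a (htt' ha)⟩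
    · rintro t t' ⟨c, hc, h1⟩ ⟨c', hc', h1'⟩
      refine ⟨min c c', lt_min hc hc', ?_⟩
      rintro a (ha | ha)
      · obtain ⟨τ, hτ, h2⟩ := h1 a ha
        exact ⟨τ, hτ, fun w hw => (min_le_left _ _).trans
          (h2 w (ball_subset_ball (min_le_left _ _) hw))⟩
      · obtain ⟨τ, hτ, h2⟩ := h1' a ha
        exact ⟨τ, hτ, fun w hw => (min_le_right _ _).trans
          (h2 w (ball_subset_ball (min_le_right _ _) hw))⟩
    · intro a ha
      have ha0 : a ≠ 0 := by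
        rintro rfl
        simp at ha
      obtain ⟨τ, hτ, h1⟩ := h a ha0
      have h2 : 0 < ‖F (a, mv M τ)‖ := norm_pos_iff.2 h1
      have h3 : IsOpen {p : (κ → ℂ) × (Fin s → ℂ) | ‖F (a, mv M τ)‖ / 2 < ‖F p‖} :=
        isOpen_lt continuous_const hF.norm
      obtain ⟨r, hr, h4⟩ := Metric.isOpen_iff.1 h3 (a, mv M τ) (by
        change ‖F (a, mv M τ)‖ / 2 < ‖F (a, mv M τ)‖
        linarith)
      refine ⟨ball a r, mem_nhdsWithin_of_mem_nhds (ball_mem_nhds a hr),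
        min (‖F (a, mv M τ)‖ / 2) r, lt_min (by linarith) hr, fun a' ha' => ⟨τ, hτ, ?_⟩⟩
      intro w hw
      have h5 : (a', w) ∈ ball (a, mv M τ) r := by
        rw [← ball_prod_same]
        exact ⟨ha', ball_subset_ball (min_le_right _ _) hw⟩
      exact (min_le_left _ _).trans (le_of_lt (h4 h5))
  obtain ⟨c, hc, h1⟩ := key
  refine ⟨c, hc, fun a => ?_⟩
  by_cases ha : a = 0
  · subst ha
    refine ⟨0, by simp, fun w _ => ?_⟩
    simp
  · have ha0 : 0 < ‖a‖ := norm_pos_iff.2 ha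
    obtain ⟨τ, hτ, h2⟩ := h1 (((‖a‖⁻¹ : ℝ) : ℂ) • a) (by
      rw [mem_sphere_zero_iff_norm, norm_smul, Complex.norm_real, Real.norm_eq_abs,
        abs_of_pos (inv_pos.2 ha0), inv_mul_cancel₀ ha0.ne'])
    refine ⟨τ, hτ, fun w hw => ?_⟩
    have h3 := h2 w hw
    have h4 : F (((‖a‖⁻¹ : ℝ) : ℂ) • a, w) = ((‖a‖⁻¹ : ℝ) : ℂ) * ∑ j, a j * f j w := by
      simp only [F, Pi.smul_apply, smul_eq_mul, Finset.mul_sum]
      exact Finset.sum_congr rfl fun j _ => by ring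
    rw [h4, norm_mul, Complex.norm_real, Real.norm_eq_abs, abs_of_pos (inv_pos.2 ha0)] at h3
    rw [inv_mul_eq_div, le_div_iff₀ ha0] at h3
    exact h3

end Pool.Agent.K3h85.EX
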